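import Pool.Agent.MP_c1891a_nt.H43.Spec

/-
Pigeonhole arguments for the multiples of a vector modulo `N`.
-/

namespace Pool.Agent.MP_c1891a_nt.H43

open Finset

/-- the difference of two reduced multiples. -/
def pigD {d : ℕ} (N : ℕ) (e : Fin d → ℤ) (k k' : ℕ) : Fin d → ℤ :=
  fun i => (k * e i) % N - (k' * e i) % N

lemma pig_dvd {d : ℕ} (N : ℕ) (e : Fin d → ℤ) (k k' : ℕ) (i : Fin d) :
    (N : ℤ) ∣ pigD N e k k' i - ((k : ℤ) - k') * e i := by
  refine ⟨(k' * e i) / N - (k * e i) / N, ?_⟩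
  unfold pigD
  rw [Int.emod_def, Int.emod_def]
  ring

lemma pig_ne {d N : ℕ} {e : Fin d → ℤ} (he : Gen N e) {k k' : ℕ} (hk : k < N) (hk' : k' < N)
    (h : k ≠ k') : pigD N e k k' ≠ 0 := fun h0 => by
  have h1 : (N : ℤ) ∣ (k : ℤ) - k' := he _ fun i => by
    have := pig_dvd N e k k' i
    rw [h0] at this
    simpa using this
  have := Int.eq_zero_of_abs_lt_dvd h1 (by rw [abs_lt]; omega)
  omega

/-- many multiples lie in one box. -/
lemma pig_box {d N Q n : ℕ} (hN : 0 < N) (hQ : 0 < Q) (e : Fin d → ℤ) (h : Q ^ d * n < N) :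
    ∃ S : Finset ℕ, S ⊆ range N ∧ n < S.card ∧
      ∀ k ∈ S, ∀ k' ∈ S, ∀ i, |pigD N e k k' i| * Q < N := by
  have hN' : (0 : ℤ) < N := by exact_mod_cast hN
  have hQ' : (0 : ℤ) < Q := by exact_mod_cast hQ
  obtain ⟨y, -, hy⟩ := exists_lt_card_fiber_of_mul_lt_card_of_maps_to (s := range N)
    (t := Fintype.piFinset fun _ : Fin d => Ico (0 : ℤ) Q) (n := n)
    (f := fun (k : ℕ) i => ((k * e i) % N * Q) / (N : ℤ)) (fun k _ => by
      rw [Fintype.mem_piFinset]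
      intro i
      have h1 := Int.emod_nonneg (k * e i) hN'.ne'
      have h2 := Int.emod_lt_of_pos (k * e i) hN'
      rw [mem_Ico]
      exact ⟨Int.ediv_nonneg (by positivity) hN'.le,
        Int.ediv_lt_of_lt_mul hN' (by nlinarith)⟩) (by simpa using h)
  refine ⟨_, filter_subset _ _, hy, fun k hk k' hk' i => ?_⟩
  have h1 := (congrFun (mem_filter.1 hk).2 i).trans (congrFun (mem_filter.1 hk').2 i).symm
  unfold pigD
  generalize (k * e i) % N = a at h1 ⊢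
  generalize (k' * e i) % N = b at h1 ⊢
  have e1 := Int.emod_def (a * Q) N
  have e2 := Int.emod_def (b * Q) N
  have l1 := Int.emod_nonneg (a * Q) hN'.ne'
  have l2 := Int.emod_lt_of_pos (a * Q) hN'
  have l3 := Int.emod_nonneg (b * Q) hN'.ne'
  have l4 := Int.emod_lt_of_pos (b * Q) hN'
  rw [h1] at e1
  rw [← abs_of_pos hQ', ← abs_mul, abs_lt]
  constructor <;> linarith

theorem sPig2 : SPig2 := by
  intro N hN e he
  have h1 := Nat.sqrt_le' (N - 1)
  have h2 := Nat.lt_succ_sqrt' (N - 1)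
  have h3 : 0 < (N - 1).sqrt := Nat.sqrt_pos.2 (by omega)
  generalize (N - 1).sqrt = Q at h1 h2 h3
  obtain ⟨S, hS, hc, hd⟩ := pig_box (N := N) (n := 1) (by omega) h3 e (by omega)
  obtain ⟨k, hk, k', hk', hne⟩ := one_lt_card.1 hc
  refine ⟨_, pigD N e k k', pig_ne he (mem_range.1 (hS hk)) (mem_range.1 (hS hk')) hne,
    pig_dvd N e k k', fun i => ?_⟩
  have h4 := hd k hk k' hk' i
  have h5 : (N : ℤ) ≤ 4 * Q ^ 2 := by
    have : N ≤ 4 * Q ^ 2 := by
      have : N ≤ (Q + 1) ^ 2 := by simp only [Nat.succ_eq_add_one] at h2; omega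
      nlinarith
    exact_mod_cast this
  have h6 : (0 : ℤ) < Q := by exact_mod_cast h3
  rw [← sq_abs]
  have h7 := abs_nonneg (pigD N e k k' i)
  generalize |pigD N e k k' i| = r at h4 h7
  have h8 : (r * Q) ^ 2 ≤ (N : ℤ) ^ 2 := pow_le_pow_left₀ (by positivity) h4.le 2
  have h9 : r ^ 2 * Q ^ 2 ≤ 4 * N * Q ^ 2 := by
    have : (0 : ℤ) ≤ N := by positivity
    nlinarith
  exact le_of_mul_le_mul_right h9 (by positivity)

/-- separated numbers in an interval are few. -/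
lemma pig_sep (S : Finset ℕ) (a : ℕ → ℝ) {T l : ℝ} (hl : 0 < l) (h1 : ∀ k ∈ S, |a k| ≤ T)
    (h2 : ∀ k ∈ S, ∀ k' ∈ S, k ≠ k' → l < |a k - a k'|) : S.card ≤ ⌊2 * T / l⌋₊ + 1 := by
  rw [← card_range (⌊2 * T / l⌋₊ + 1)]
  refine card_le_card_of_injOn (fun k => ⌊(a k + T) / l⌋₊) (fun k hk => ?_) fun k hk k' hk' h => ?_
  · have := abs_le.1 (h1 k hk)
    simp only [coe_range, Set.mem_Iio, Nat.lt_succ_iff]
    exact Nat.floor_le_floor (div_le_div_of_nonneg_right (by linarith) hl.le)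
  · by_contra hne
    have h3 := h2 k hk k' hk' hne
    have p : ∀ j ∈ S, 0 ≤ (a j + T) / l := fun j hj =>
      div_nonneg (by linarith [(abs_le.1 (h1 j hj)).1]) hl.le
    have f1 := Nat.floor_le (p k hk)
    have f2 := Nat.lt_floor_add_one ((a k + T) / l)
    have f3 := Nat.floor_le (p k' hk')
    have f4 := Nat.lt_floor_add_one ((a k' + T) / l)
    simp only at h
    rw [h] at f1 f2
    rw [le_div_iff₀ hl] at f1 f3
    rw [div_lt_iff₀ hl] at f2 f4
    have : |a k - a k'| < l := by rw [abs_lt]; constructor <;> linarith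
    linarith

theorem sPig4 : SPig4 := by
  refine ⟨4 ^ 45, fun N hN e he => ?_⟩
  have hN0 : 0 < N := lt_of_lt_of_le (by norm_num) hN
  have hN1 : (0 : ℝ) ≤ N := by positivity
  obtain ⟨x, hx⟩ : ∃ x : ℝ, x = (N : ℝ) ^ (1 / 45 : ℝ) := ⟨_, rfl⟩
  have pw : ∀ n : ℕ, x ^ n = (N : ℝ) ^ (n / 45 : ℝ) := fun n => by
    rw [hx, ← Real.rpow_natCast, ← Real.rpow_mul hN1]
    congr 1
    ring
  have e45 : x ^ 45 = N := by rw [pw]; norm_num
  have e44 : (N : ℝ) ^ (44 / 45 : ℝ) = x ^ 44 := by rw [pw]; norm_num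
  have e3 : (N : ℝ) ^ (1 / 15 : ℝ) = x ^ 3 := by rw [pw]; norm_num
  have x0 : 0 ≤ x := by rw [hx]; positivity
  have x4 : 4 ≤ x := by
    refine le_of_pow_le_pow_left₀ (n := 45) (by norm_num) x0 ?_
    rw [e45]
    exact_mod_cast hN
  have x1 : 0 < x := by linarith
  rw [e44, e3]
  have q1 := Nat.le_ceil (x / 5)
  have q2 := Nat.ceil_lt_add_one (a := x / 5) (by positivity)
  have q3 : 0 < ⌈x / 5⌉₊ := Nat.ceil_pos.2 (by positivity)
  generalize ⌈x / 5⌉₊ = Q at q1 q2 q3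
  have n1 := Nat.floor_le (a := 10 * x ^ 41) (by positivity)
  obtain ⟨S, hS, hc, hd⟩ := pig_box (n := ⌊10 * x ^ 41⌋₊ + 1) hN0 q3 e (by
    have h1 : (Q : ℝ) ^ 4 ≤ (x / 2) ^ 4 := pow_le_pow_left₀ (by positivity) (by linarith) 4
    have h2 : (1 : ℝ) ≤ x ^ 41 := one_le_pow₀ (by linarith)
    have h3 : (Q : ℝ) ^ 4 * (⌊10 * x ^ 41⌋₊ + 1) ≤ (x / 2) ^ 4 * (11 * x ^ 41) :=
      mul_le_mul h1 (by linarith) (by positivity) (by positivity)
    have h4 : (x / 2) ^ 4 * (11 * x ^ 41) < N := by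
      rw [← e45]
      have : 0 < x ^ 45 := by positivity
      linarith
    exact_mod_cast h3.trans_lt h4)
  have hT : ∀ k ∈ S, ∀ k' ∈ S, ∀ i, (|pigD N e k k' i| : ℝ) ≤ 5 * x ^ 44 := fun k hk k' hk' i => by
    have h1 : (|pigD N e k k' i| : ℝ) * Q < N := by exact_mod_cast hd k hk k' hk' i
    have h2 : (|pigD N e k k' i| : ℝ) * (x / 5) ≤ |(pigD N e k k' i : ℝ)| * Q :=
      mul_le_mul_of_nonneg_left q1 (abs_nonneg _)
    refine le_of_mul_le_mul_right ?_ (show 0 < x / 5 by positivity)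
    rw [← e45] at h1
    linarith
  by_contra hcon
  rw [not_or] at hcon
  obtain ⟨c1, c2⟩ := hcon
  obtain ⟨k₁, hk₁, k₀, hk₀, hne⟩ := one_lt_card.1 (lt_of_le_of_lt (by omega) hc)
  have z : ∀ k ∈ S, ∀ k' ∈ S, k ≠ k' → pigD N e k k' ≠ 0 := fun k hk k' hk' h =>
    pig_ne he (mem_range.1 (hS hk)) (mem_range.1 (hS hk')) h
  obtain ⟨i₀, -, hi₀⟩ := exists_max_image univ (fun i => |pigD N e k₁ k₀ i|) univ_nonempty
  have p0 : 0 < |pigD N e k₁ k₀ i₀| := by
    obtain ⟨i, hi⟩ := Function.ne_iff.1 (z _ hk₁ _ hk₀ hne)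
    exact (abs_pos.2 hi).trans_le (hi₀ i (mem_univ _))
  have := pig_sep S (fun k => pigD N e k k₀ i₀) (T := 5 * x ^ 44) (l := x ^ 3) (by positivity)
    (fun k hk => hT k hk k₀ hk₀ i₀) fun k hk k' hk' h => by
      have m : ∀ i, |pigD N e k k' i| ≤ |pigD N e k k' i₀| := fun i => by
        have : pigD N e k k' i * pigD N e k₁ k₀ i₀ = pigD N e k k' i₀ * pigD N e k₁ k₀ i := by
          by_contra hm
          exact c2 ⟨_, _, _, _, pig_dvd N e k k', pig_dvd N e k₁ k₀, ⟨i, i₀, hm⟩, fun j =>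
            ⟨hT k hk k' hk' j, hT k₁ hk₁ k₀ hk₀ j⟩⟩
        refine le_of_mul_le_mul_right ?_ p0
        rw [← abs_mul, this, abs_mul]
        exact mul_le_mul_of_nonneg_left (hi₀ i (mem_univ _)) (abs_nonneg _)
      by_contra hs
      refine c1 ⟨_, _, z k hk k' hk' h, pig_dvd N e k k', fun i => ?_⟩
      have h1 : (|pigD N e k k' i| : ℝ) ≤ |(pigD N e k k' i₀ : ℝ)| := by exact_mod_cast m i
      have h2 : (pigD N e k k₀ i₀ : ℝ) - pigD N e k' k₀ i₀ = pigD N e k k' i₀ := by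
        unfold pigD
        push_cast
        ring
      rw [h2] at hs
      exact h1.trans (not_lt.1 hs)
  rw [show 2 * (5 * x ^ 44) / x ^ 3 = 10 * x ^ 41 by field_simp; ring] at this
  omega

end Pool.Agent.MP_c1891a_nt.H43
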