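import Pool.Agent.MP_c1891a_nt.H79.Spec

/-
The arithmetic step: the logarithm of the norm polynomial against the independence measure.
-/

set_option autoImplicit false

namespace Pool.Agent.MP_c1891a_nt.H70

open Finset Polynomial Pool.Agent.MP_c1891a_nt.H79

namespace TB

/-- The character attached to two nonzero numbers. -/
noncomputable def ch {x y : ℂ} (hx : x ≠ 0) (hy : y ≠ 0) : Multiplicative (ℤ × ℤ) →* ℂ where
  toFun l := x ^ l.toAdd.1 * y ^ l.toAdd.2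
  map_one' := by simp
  map_mul' l m := by
    simp only [toAdd_mul, Prod.fst_add, Prod.snd_add, zpow_add₀ hx, zpow_add₀ hy]
    ring

theorem ev_pow (S : AddMonoidAlgebra ℤ (ℤ × ℤ)) {x y : ℂ} (hx : x ≠ 0) (hy : y ≠ 0) (n : ℕ) :
    ev S x y ^ n = ev (S ^ n) x y := by
  have h : ∀ P, ev P x y = AddMonoidAlgebra.lift ℤ ℂ (ℤ × ℤ) (ch hx hy) P := fun P => by
    rw [AddMonoidAlgebra.lift_apply', ev, Finsupp.sum]
    exact sum_congr rfl fun μ _ => mul_assoc _ _ _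
  rw [h, h, map_pow]

theorem ev_eq (S : AddMonoidAlgebra ℤ (ℤ × ℤ)) {ω : ℂ} (h : ω ≠ 0) (α β : ℤ) :
    ev S (ω ^ α) (ω ^ β) =
      ∑ μ ∈ S.coeff.support, (S.coeff μ : ℂ) * ω ^ (α * μ.1 + β * μ.2) :=
  sum_congr rfl fun μ _ => by rw [zpow_add₀ h, zpow_mul, zpow_mul, mul_assoc]

theorem box (S : AddMonoidAlgebra ℤ (ℤ × ℤ)) : ∃ R : ℕ, 0 < R ∧ ∀ n : ℕ,
    ∀ l ∈ (S ^ n).coeff.support, |l.1| ≤ (n * R : ℕ) ∧ |l.2| ≤ (n * R : ℕ) := by
  obtain ⟨R, hR⟩ : ∃ R : ℕ, ∀ l ∈ S.coeff.support, l.1.natAbs + l.2.natAbs ≤ R :=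
    ⟨S.coeff.support.sup fun l => l.1.natAbs + l.2.natAbs, fun _ h =>
      le_sup (f := fun l : ℤ × ℤ => l.1.natAbs + l.2.natAbs) h⟩
  refine ⟨R + 1, R.succ_pos, fun n => ?_⟩
  induction n with
  | zero =>
    intro l hl
    rw [pow_zero] at hl
    obtain rfl : l = 0 := mem_zero.1 (AddMonoidAlgebra.support_coeff_one_subset hl)
    simp
  | succ n ih =>
    intro l hl
    rw [pow_succ] at hl
    obtain ⟨u, hu, v, hv, rfl⟩ := mem_add.1 (AddMonoidAlgebra.support_coeff_mul_subset _ _ hl)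
    obtain ⟨h1, h2⟩ := ih u hu
    have h3 := hR v hv
    rw [Nat.succ_mul, Prod.fst_add, Prod.snd_add]
    generalize n * (R + 1) = m at h1 h2
    rw [abs_le] at h1 h2
    rw [abs_le, abs_le]
    omega

theorem coeff_pj {G : Type} [AddCommGroup G] [DecidableEq G] (π : ℤ × ℤ →+ G)
    (S : AddMonoidAlgebra ℤ (ℤ × ℤ)) (n : ℕ) (x : G) :
    (AddMonoidAlgebra.mapDomainRingHom ℤ π S ^ n).coeff x =
      ∑ l ∈ (S ^ n).coeff.support, if π l = x then (S ^ n).coeff l else 0 := by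
  rw [← map_pow]
  change Finsupp.mapDomain π (S ^ n).coeff x = _
  rw [Finsupp.mapDomain, Finsupp.sum_apply, Finsupp.sum]
  exact sum_congr rfl fun l _ => Finsupp.single_apply

/-- The projections. -/
def pp (a : ℕ) (p q r : ℤ) : ℤ × ℤ →+ ℤ × ℤ × ZMod a × ZMod a where
  toFun l := (p * l.1, q * l.2, ((r * l.1 : ℤ) : ZMod a), ((r * l.2 : ℤ) : ZMod a))
  map_zero' := by simp
  map_add' l m := by simp [mul_add]

/-- The projection of an index. -/
def pj (a : ℕ) : Option (Fin 3 × ZMod a × ZMod a) → ℤ × ℤ →+ ℤ × ℤ × ZMod a × ZMod a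
  | none => pp a 1 1 0
  | some i => pp a (![1, 0, 0] i.1) (![0, 1, 0] i.1) 1

/-- The residue class of an index. -/
def gm (a : ℕ) : Option (Fin 3 × ZMod a × ZMod a) → ZMod a × ZMod a
  | none => 0
  | some i => i.2

/-- The coefficients. -/
def bb {a : ℕ} (b : ℤ) (w : Fin 3 → ZMod a × ZMod a → ℤ) : Option (Fin 3 × ZMod a × ZMod a) → ℤ
  | none => b
  | some i => w i.1 i.2

theorem pj_none (a : ℕ) (l : ℤ × ℤ) : pj a none l = (0, 0, gm a none) ↔ l = 0 := by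
  simp [pj, pp, gm, Prod.ext_iff]

theorem key (a : ℕ) [NeZero a] (b : ℤ) (w : Fin 3 → ZMod a × ZMod a → ℤ) (l : ℤ × ℤ) :
    ∑ i, (if pj a i l = (0, 0, gm a i) then bb b w i else 0) =
      (if l = 0 then b else 0) + (if l.1 = 0 then w 0 (l.1, l.2) else 0) +
        (if l.2 = 0 then w 1 (l.1, l.2) else 0) + w 2 (l.1, l.2) := by
  have h : ∀ (i : Fin 3) (γ : ZMod a × ZMod a), pj a (some (i, γ)) l = (0, 0, gm a (some (i, γ))) ↔
      (![1, 0, 0] i * l.1 = 0 ∧ ![0, 1, 0] i * l.2 = 0) ∧ ((l.1 : ZMod a), (l.2 : ZMod a)) = γ :=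
    fun i γ => by simp [pj, pp, gm, Prod.ext_iff, and_assoc]
  rw [Fintype.sum_option, Fintype.sum_prod_type]
  simp only [pj_none, h, ite_and, bb]
  simp [Fin.sum_univ_three, add_assoc]

variable (S : AddMonoidAlgebra ℤ (ℤ × ℤ)) (α β : ℤ)

theorem prim_ne {N : ℕ} (hN : 0 < N) {ω : ℂ} (h : ω ∈ primitiveRoots N ℂ) : ω ≠ 0 :=
  ((mem_primitiveRoots hN).1 h).ne_zero hN.ne'

/-- The norm polynomial. -/
theorem norm_poly (h4 : SInt) (h5 : SNorm) {N : ℕ} (hN : 0 < N) {τ : ℂ} (hτ : IsPrimitiveRoot τ N)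
    {c : ℤ} (hc : 3 ≤ |c|) (hu : IsU (1 + c * ev S (τ ^ α) (τ ^ β))) : ∃ A : ℤ[X],
    A.map (Int.castRingHom ℂ) =
      ∏ ω ∈ primitiveRoots N ℂ, (1 + C (ev S (ω ^ α) (ω ^ β)) * X) ∧ A.eval c = 1 := by
  obtain ⟨A, hA⟩ := h4 N hN (Option (ℤ × ℤ)) (insertNone S.coeff.support)
    (fun o => o.elim 1 S.coeff) (fun o => o.elim 0 fun μ => α * μ.1 + β * μ.2)
    fun o => o.elim 0 fun _ => 1
  have hA' : A.map (Int.castRingHom ℂ) =
      ∏ ω ∈ primitiveRoots N ℂ, (1 + C (ev S (ω ^ α) (ω ^ β)) * X) := by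
    rw [hA]
    refine prod_congr rfl fun ω hω => ?_
    rw [sum_insertNone, ev_eq S (prim_ne hN hω), map_sum, sum_mul]
    simp
  have he : ∀ ω : ℂ, ω ≠ 0 → ∑ i ∈ insertNone S.coeff.support,
      ((i.elim 1 fun μ => c * S.coeff μ : ℤ) : ℂ) * ω ^ (i.elim 0 fun μ => α * μ.1 + β * μ.2) =
      1 + c * ev S (ω ^ α) (ω ^ β) := fun ω hω => by
    rw [sum_insertNone, ev_eq S hω, mul_sum]
    simp [mul_assoc]
  have hv : ∀ x : ℤ, ((A.eval x : ℤ) : ℂ) =
      ∏ ω ∈ primitiveRoots N ℂ, (1 + x * ev S (ω ^ α) (ω ^ β)) := fun x => by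
    refine (eval_intCast_map (Int.castRingHom ℂ) A x).symm.trans ?_
    rw [hA', eval_prod]
    exact prod_congr rfl fun ω _ => by rw [eval_add, eval_one, eval_mul, eval_C, eval_X, mul_comm]
  have h0 : A.eval 0 = 1 := by
    have := hv 0
    simp only [Int.cast_zero, zero_mul, add_zero, prod_const_one] at this
    exact_mod_cast this
  have h1 := h5 N hN (Option (ℤ × ℤ)) (insertNone S.coeff.support)
    (fun o => o.elim 1 fun μ => c * S.coeff μ) (fun o => o.elim 0 fun μ => α * μ.1 + β * μ.2) τ hτ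
    (by rwa [he τ (hτ.ne_zero hN.ne')])
  rw [prod_congr rfl fun ω hω => he ω (prim_ne hN hω), ← hv] at h1
  refine ⟨A, hA', h1.elim (fun h => by exact_mod_cast h) fun h => ?_⟩
  have h2 : A.eval c = -1 := by exact_mod_cast h
  have h3 := sub_dvd_eval_sub c 0 A
  rw [h0, h2, sub_zero, ← abs_dvd, ← dvd_neg] at h3
  have := Int.le_of_dvd (by norm_num) h3
  omega

theorem pow_sum {N : ℕ} (hN : 0 < N) (n : ℕ) :
    ∑ ω ∈ primitiveRoots N ℂ, ev S (ω ^ α) (ω ^ β) ^ n =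
      ∑ l ∈ (S ^ n).coeff.support, ((S ^ n).coeff l : ℂ) * ram N (α * l.1 + β * l.2) := by
  rw [sum_congr rfl fun ω hω => (ev_pow S (zpow_ne_zero α (prim_ne hN hω))
    (zpow_ne_zero β (prim_ne hN hω)) n).trans (ev_eq _ (prim_ne hN hω) α β), sum_comm]
  exact sum_congr rfl fun l _ => (mul_sum _ _ _).symm

end TB

open TB in
theorem stb (h1 : SG) (h2 : SDf) (h3 : SLog) (h4 : SInt) (h5 : SNorm) : STB := by
  rintro S ⟨n₀, hn₀, hS⟩ a ha
  have : NeZero a := ⟨ha.ne'⟩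
  obtain ⟨R, hR, hb⟩ := box S
  obtain ⟨c₀, hc₀⟩ := h1 (Option (Fin 3 × ZMod a × ZMod a))
    (fun i => lg (AddMonoidAlgebra.mapDomainRingHom ℤ (pj a i) S) (0, 0, gm a i)) none
    (fun i => h2 _ _ _) fun h => by
      have := congrArg (PowerSeries.coeff n₀) h
      rw [lg, PowerSeries.coeff_mk, coeff_pj, map_zero] at this
      simp only [pj_none, sum_ite_eq', Finsupp.mem_support_iff.2 hS, if_true] at this
      simp [hS, hn₀.ne'] at this
  refine ⟨max c₀ 3, fun c hc => ?_⟩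
  have c3 : 3 ≤ |c| := le_trans (by exact_mod_cast le_max_right c₀ 3) hc
  obtain ⟨κ, hκ⟩ := hc₀ c (le_trans (by exact_mod_cast le_max_left c₀ 3) hc)
  refine ⟨R * (κ + 1), fun N τ α β b w T hN hτ hu hb0 hw hr => ?_⟩
  obtain ⟨A, hA, hA1⟩ := norm_poly S α β h4 h5 hN hτ c3 hu
  obtain ⟨V, hV, hV'⟩ := h3 ℂ _ _ A c (by rintro rfl; simp at c3) hA hA1 (T / R)
  have := hκ (bb b w) hb0 (fun i hi => ?_) (T / R) V hV fun n hn => ?_
  · change T / R ≤ κ * (Nat.log 2 b.natAbs + 1) at this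
    have h6 := Nat.lt_mul_div_succ T hR
    rw [mul_assoc]
    exact h6.le.trans (Nat.mul_le_mul_left R (by rw [add_mul]; omega))
  · obtain _ | i := i
    · exact absurd rfl hi
    · refine le_trans (mul_le_mul_of_nonneg_right ?_ (abs_nonneg _)) (hw i.1 i.2)
      exact_mod_cast (Nat.le_succ κ).trans (Nat.le_mul_of_pos_left _ hR)
  · have hT : ((n * R : ℕ) : ℤ) ≤ T := by
      exact_mod_cast (Nat.mul_le_mul_right R hn.le).trans (Nat.div_mul_le_self T R)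
    apply Rat.cast_injective (α := ℂ)
    have h7 : ∑ l ∈ (S ^ n).coeff.support, ((S ^ n).coeff l : ℂ) * ram N (α * l.1 + β * l.2) =
        ∑ l ∈ (S ^ n).coeff.support, ((S ^ n).coeff l : ℂ) *
          (∑ i, (if pj a i l = (0, 0, gm a i) then bb b w i else 0) : ℤ) :=
      sum_congr rfl fun l hl => by
        rw [hr l ((hb n l hl).1.trans hT) ((hb n l hl).2.trans hT), key]
    rw [hV' n hn, pow_sum S α β hN, h7, map_sum]
    simp only [PowerSeries.coeff_C_mul, lg, PowerSeries.coeff_mk, coeff_pj]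
    push_cast
    simp only [mul_sum, sum_div]
    rw [sum_comm]
    refine sum_congr rfl fun l _ => sum_congr rfl fun i _ => ?_
    split_ifs
    · rw [Rat.cast_intCast]
      ring
    · simp

end Pool.Agent.MP_c1891a_nt.H70
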